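import Mathlib

set_option autoImplicit false

namespace H593Six

open Complex ComplexConjugate

/-- A function on the six points which is orthogonal to `B`, `A` and the conjugate of `A` is the
restriction of an affine function. -/
theorem affine_of (z A D : Fin 6 → ℂ) (B E : Fin 6 → ℝ)
    (hQ : ∀ i j, A i * z j ^ 2 + conj (A i) * conj (z j) ^ 2 + B i * (z j * conj (z j)) +
      D i * z j + conj (D i) * conj (z j) + E i = if i = j then 1 else 0)
    (f : Fin 6 → ℂ) (h1 : ∑ i, (B i : ℂ) * f i = 0) (h2 : ∑ i, A i * f i = 0)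
    (h3 : ∑ i, conj (A i) * f i = 0) :
    ∀ j, f j = ∑ i, (E i : ℂ) * f i + (∑ i, D i * f i) * z j +
      (∑ i, conj (D i) * f i) * conj (z j) := by
  intro j
  have e1 : f j = ∑ i, (if i = j then (1 : ℂ) else 0) * f i := by simp
  rw [e1]
  simp only [← hQ]
  have e2 : ∑ i, (A i * z j ^ 2 + conj (A i) * conj (z j) ^ 2 + B i * (z j * conj (z j)) +
      D i * z j + conj (D i) * conj (z j) + E i) * f i =
      (∑ i, A i * f i) * z j ^ 2 + (∑ i, conj (A i) * f i) * conj (z j) ^ 2 +
      (∑ i, (B i : ℂ) * f i) * (z j * conj (z j)) + (∑ i, D i * f i) * z j +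
      (∑ i, conj (D i) * f i) * conj (z j) + ∑ i, (E i : ℂ) * f i := by
    simp only [Finset.sum_mul, ← Finset.sum_add_distrib]
    refine Finset.sum_congr rfl (fun i _ => ?_)
    ring
  rw [e2, h1, h2, h3]
  ring

/-- the moments -/
theorem moments (z A D : Fin 6 → ℂ) (B E : Fin 6 → ℝ)
    (hQ : ∀ i j, A i * z j ^ 2 + conj (A i) * conj (z j) ^ 2 + B i * (z j * conj (z j)) +
      D i * z j + conj (D i) * conj (z j) + E i = if i = j then 1 else 0) :
    (∑ i, A i = 0 ∧ ∑ i, A i * z i = 0 ∧ ∑ i, A i * conj (z i) = 0 ∧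
      ∑ i, A i * (z i * conj (z i)) = 0 ∧ ∑ i, A i * conj (z i) ^ 2 = 0 ∧
      ∑ i, A i * z i ^ 2 = 1) ∧
    (∑ i, (B i : ℂ) = 0 ∧ ∑ i, (B i : ℂ) * z i = 0 ∧ ∑ i, (B i : ℂ) * conj (z i) = 0 ∧
      ∑ i, (B i : ℂ) * (z i * conj (z i)) = 1 ∧ ∑ i, (B i : ℂ) * conj (z i) ^ 2 = 0 ∧
      ∑ i, (B i : ℂ) * z i ^ 2 = 0) := by
  let N : Matrix (Fin 6) (Fin 6) ℂ := Matrix.of fun i =>
    ![A i, conj (A i), (B i : ℂ), D i, conj (D i), (E i : ℂ)]
  let M : Matrix (Fin 6) (Fin 6) ℂ := Matrix.of fun m j =>
    (![z j ^ 2, conj (z j) ^ 2, z j * conj (z j), z j, conj (z j), 1] : Fin 6 → ℂ) m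
  have hNM : N * M = 1 := by
    ext i j
    rw [Matrix.mul_apply, Matrix.one_apply, ← hQ i j]
    simp [Fin.sum_univ_succ, N, M]
    ring
  have hMN : M * N = 1 := mul_eq_one_comm.mp hNM
  have key : ∀ m m' : Fin 6, ∑ i, M m i * N i m' = if m = m' then 1 else 0 := by
    intro m m'
    rw [← Matrix.mul_apply, hMN, Matrix.one_apply]
  have k00 := key 0 0
  have k10 := key 1 0
  have k20 := key 2 0
  have k30 := key 3 0
  have k40 := key 4 0
  have k50 := key 5 0
  have k02 := key 0 2
  have k12 := key 1 2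
  have k22 := key 2 2
  have k32 := key 3 2
  have k42 := key 4 2
  have k52 := key 5 2
  simp only [M, N, Matrix.of_apply] at k00 k10 k20 k30 k40 k50 k02 k12 k22 k32 k42 k52
  simp at k00 k10 k20 k30 k40 k50 k02 k12 k22 k32 k42 k52
  refine ⟨⟨?_, ?_, ?_, ?_, ?_, ?_⟩, ?_, ?_, ?_, ?_, ?_, ?_⟩
  · exact k50
  · rw [← k30]; exact Finset.sum_congr rfl (fun i _ => by ring)
  · rw [← k40]; exact Finset.sum_congr rfl (fun i _ => by ring)
  · rw [← k20]; exact Finset.sum_congr rfl (fun i _ => by ring)
  · rw [← k10]; exact Finset.sum_congr rfl (fun i _ => by ring)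
  · rw [← k00]; exact Finset.sum_congr rfl (fun i _ => by ring)
  · exact k52
  · rw [← k32]; exact Finset.sum_congr rfl (fun i _ => by ring)
  · rw [← k42]; exact Finset.sum_congr rfl (fun i _ => by ring)
  · rw [← k22]; exact Finset.sum_congr rfl (fun i _ => by ring)
  · rw [← k12]; exact Finset.sum_congr rfl (fun i _ => by ring)
  · rw [← k02]; exact Finset.sum_congr rfl (fun i _ => by ring)

/-- The algebraic core: the six Lagrange polynomials of degree two of six points do not all have
the same eccentricity. -/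
theorem core (z A D : Fin 6 → ℂ) (B E : Fin 6 → ℝ) (t : ℝ)
    (hQ : ∀ i j, A i * z j ^ 2 + conj (A i) * conj (z j) ^ 2 + B i * (z j * conj (z j)) +
      D i * z j + conj (D i) * conj (z j) + E i = if i = j then 1 else 0)
    (hB : ∀ i, B i ≠ 0) (ht : ∀ i, A i * conj (A i) = t * B i ^ 2) : False := by
  obtain ⟨⟨a0, a1, a2, a3, a4, a5⟩, b0, b1, b2, b3, b4, b5⟩ := moments z A D B E hQ
  have hBc : ∀ i, (B i : ℂ) ≠ 0 := fun i => by exact_mod_cast hB i
  -- the function `v`
  set v : Fin 6 → ℂ := fun i => A i / B i with hv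
  have hA : ∀ i, A i = B i * v i := fun i => by
    simp only [hv]; field_simp [hBc i]
  have hA' : ∀ i, conj (A i) = B i * conj (v i) := fun i => by
    rw [hA i, map_mul, conj_ofReal]
  have hvv : ∀ i, v i * conj (v i) = t := fun i => by
    have h1 := ht i
    rw [hA' i, hA i] at h1
    have h2 : ((B i : ℂ) ^ 2) * (v i * conj (v i) - t) = 0 := by linear_combination h1
    have h3 := (mul_eq_zero.mp h2).resolve_left (pow_ne_zero 2 (hBc i))
    exact sub_eq_zero.mp h3
  by_cases hα : ∑ i, A i * v i = 0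
  · -- `v` is affine
    have h1 : ∑ i, (B i : ℂ) * v i = 0 := by simpa only [← hA] using a0
    have h3 : ∑ i, conj (A i) * v i = 0 := by
      have : ∀ i, conj (A i) * v i = t * (B i : ℂ) := fun i => by
        rw [hA' i]; linear_combination (B i : ℂ) * hvv i
      simp only [this, ← Finset.mul_sum, b0, mul_zero]
    have haf := affine_of z A D B E hQ v h1 hα h3
    set δ : ℂ := ∑ i, (E i : ℂ) * v i
    set β : ℂ := ∑ i, D i * v i
    set γ : ℂ := ∑ i, conj (D i) * v i
    -- pair `|v|²` with `B`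
    have e1 : ∑ i, (B i : ℂ) * (v i * conj (v i)) = 0 := by
      simp only [hvv, ← Finset.sum_mul, b0, zero_mul]
    have e2 : ∑ i, (B i : ℂ) * (v i * conj (v i)) =
        (δ * conj δ) * ∑ i, (B i : ℂ) + (δ * conj β + γ * conj δ) * ∑ i, (B i : ℂ) * conj (z i) +
        (δ * conj γ + β * conj δ) * ∑ i, (B i : ℂ) * z i +
        (β * conj β + γ * conj γ) * ∑ i, (B i : ℂ) * (z i * conj (z i)) +
        (β * conj γ) * ∑ i, (B i : ℂ) * z i ^ 2 +
        (γ * conj β) * ∑ i, (B i : ℂ) * conj (z i) ^ 2 := by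
      simp only [Finset.mul_sum, ← Finset.sum_add_distrib]
      refine Finset.sum_congr rfl (fun i _ => ?_)
      rw [haf i]
      simp only [map_add, map_mul, conj_conj]
      ring
    rw [e1, b0, b1, b2, b3, b4, b5] at e2
    have e3 : β * conj β + γ * conj γ = 0 := by linear_combination -e2
    have e4 : normSq β + normSq γ = 0 := by
      have : ((normSq β + normSq γ : ℝ) : ℂ) = 0 := by
        push_cast
        rw [← mul_conj, ← mul_conj]; exact e3
      exact_mod_cast this
    have hβ : β = 0 := normSq_eq_zero.mp (le_antisymm (by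
      have := normSq_nonneg γ; linarith) (normSq_nonneg β))
    have hγ : γ = 0 := normSq_eq_zero.mp (le_antisymm (by
      have := normSq_nonneg β; linarith) (normSq_nonneg γ))
    have e5 : ∑ i, A i * z i ^ 2 = δ * ∑ i, (B i : ℂ) * z i ^ 2 := by
      rw [Finset.mul_sum]
      refine Finset.sum_congr rfl (fun i _ => ?_)
      rw [hA i, haf i, hβ, hγ]; ring
    rw [a5, b5] at e5
    simp at e5
  · -- the six points are concyclic
    set α : ℂ := ∑ i, A i * v i with hαd
    set s3 : ℂ := ∑ i, A i * v i * conj (z i) with hs3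
    set y : ℂ := s3 / α with hy
    have hyα : y * α = s3 := by rw [hy]; field_simp
    set f : Fin 6 → ℂ := fun i => v i * (conj (z i) - y) with hf
    have h1 : ∑ i, (B i : ℂ) * f i = 0 := by
      have : ∑ i, (B i : ℂ) * f i = ∑ i, A i * conj (z i) - y * ∑ i, A i := by
        rw [Finset.mul_sum, ← Finset.sum_sub_distrib]
        refine Finset.sum_congr rfl (fun i _ => ?_)
        simp only [hf]; rw [hA i]; ring
      rw [this, a2, a0]; ring
    have h2 : ∑ i, A i * f i = 0 := by
      have : ∑ i, A i * f i = s3 - y * α := by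
        rw [hs3, hαd, Finset.mul_sum, ← Finset.sum_sub_distrib]
        refine Finset.sum_congr rfl (fun i _ => ?_)
        simp only [hf]; ring
      rw [this, hyα, sub_self]
    have h3 : ∑ i, conj (A i) * f i = 0 := by
      have : ∑ i, conj (A i) * f i = t * (∑ i, (B i : ℂ) * conj (z i)) - t * y * ∑ i, (B i : ℂ) := by
        rw [Finset.mul_sum, Finset.mul_sum, ← Finset.sum_sub_distrib]
        refine Finset.sum_congr rfl (fun i _ => ?_)
        simp only [hf]; rw [hA' i]
        linear_combination (B i : ℂ) * (conj (z i) - y) * hvv i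
      rw [this, b2, b0]; ring
    have haf := affine_of z A D B E hQ f h1 h2 h3
    set δ : ℂ := ∑ i, (E i : ℂ) * f i
    set β : ℂ := ∑ i, D i * f i
    set γ : ℂ := ∑ i, conj (D i) * f i
    have hγ : γ = 0 := by
      have e1 : ∑ i, (B i : ℂ) * f i * z i = 0 := by
        have : ∑ i, (B i : ℂ) * f i * z i = ∑ i, A i * (z i * conj (z i)) - y * ∑ i, A i * z i := by
          rw [Finset.mul_sum, ← Finset.sum_sub_distrib]
          refine Finset.sum_congr rfl (fun i _ => ?_)
          simp only [hf]; rw [hA i]; ring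
        rw [this, a3, a1]; ring
      have e2 : ∑ i, (B i : ℂ) * f i * z i = δ * ∑ i, (B i : ℂ) * z i +
          β * ∑ i, (B i : ℂ) * z i ^ 2 + γ * ∑ i, (B i : ℂ) * (z i * conj (z i)) := by
        simp only [Finset.mul_sum, ← Finset.sum_add_distrib]
        refine Finset.sum_congr rfl (fun i _ => ?_)
        rw [haf i]; ring
      rw [e1, b1, b5, b3] at e2
      linear_combination -e2
    have hβ : β = 0 := by
      have e1 : ∑ i, (B i : ℂ) * f i * conj (z i) = 0 := by
        have : ∑ i, (B i : ℂ) * f i * conj (z i) =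
            ∑ i, A i * conj (z i) ^ 2 - y * ∑ i, A i * conj (z i) := by
          rw [Finset.mul_sum, ← Finset.sum_sub_distrib]
          refine Finset.sum_congr rfl (fun i _ => ?_)
          simp only [hf]; rw [hA i]; ring
        rw [this, a4, a2]; ring
      have e2 : ∑ i, (B i : ℂ) * f i * conj (z i) = δ * ∑ i, (B i : ℂ) * conj (z i) +
          β * ∑ i, (B i : ℂ) * (z i * conj (z i)) + γ * ∑ i, (B i : ℂ) * conj (z i) ^ 2 := by
        simp only [Finset.mul_sum, ← Finset.sum_add_distrib]
        refine Finset.sum_congr rfl (fun i _ => ?_)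
        rw [haf i]; ring
      rw [e1, b2, b3, b4] at e2
      linear_combination -e2
    have hfc : ∀ i, v i * (conj (z i) - y) = δ := fun i => by
      have := haf i
      rw [hβ, hγ] at this
      simpa only [hf, zero_mul, add_zero] using this
    -- pair `|f|²` with `B`
    have hff : ∀ i, (t : ℂ) * ((conj (z i) - y) * (z i - conj y)) = δ * conj δ := fun i => by
      have h := hfc i
      have h' : conj (v i) * (z i - conj y) = conj δ := by
        rw [← h]; simp only [map_mul, map_sub, conj_conj]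
      rw [← h', ← h]
      linear_combination -((conj (z i) - y) * (z i - conj y)) * hvv i
    have e1 : ∑ i, (B i : ℂ) * ((t : ℂ) * ((conj (z i) - y) * (z i - conj y))) = 0 := by
      simp only [hff, ← Finset.sum_mul, b0, zero_mul]
    have e2 : ∑ i, (B i : ℂ) * ((t : ℂ) * ((conj (z i) - y) * (z i - conj y))) =
        t * ∑ i, (B i : ℂ) * (z i * conj (z i)) - t * conj y * ∑ i, (B i : ℂ) * conj (z i) -
        t * y * ∑ i, (B i : ℂ) * z i + t * (y * conj y) * ∑ i, (B i : ℂ) := by
      simp only [Finset.mul_sum, ← Finset.sum_add_distrib, ← Finset.sum_sub_distrib]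
      refine Finset.sum_congr rfl (fun i _ => ?_)
      ring
    rw [e1, b3, b2, b1, b0] at e2
    have htz : (t : ℂ) = 0 := by linear_combination -e2
    have hA0 : ∀ i, A i = 0 := fun i => by
      have h := ht i
      rw [htz, zero_mul, mul_conj] at h
      exact normSq_eq_zero.mp (by exact_mod_cast h)
    simp [hA0] at a5

end H593Six
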