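import Mathlib

set_option autoImplicit false

namespace H593Six

/-- The Euclidean plane. -/
abbrev Pl : Type := EuclideanSpace ℝ (Fin 2)

/-- Two plane sets are congruent: some isometry of the plane maps the first onto the second. -/
def Congruent (C D : Set Pl) : Prop := ∃ g : Pl ≃ᵢ Pl, g '' C = D

/-- The ellipse with equation `x² / a² + y² / b² = 1`. -/
def stdEllipse (a b : ℝ) : Set Pl := {x | x 0 ^ 2 / a ^ 2 + x 1 ^ 2 / b ^ 2 = 1}

/-- The hyperbola with equation `x² / a² - y² / b² = 1`. -/
def stdHyperbola (a b : ℝ) : Set Pl := {x | x 0 ^ 2 / a ^ 2 - x 1 ^ 2 / b ^ 2 = 1}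

/-- The parabola with equation `y = k x²`. -/
def stdParabola (k : ℝ) : Set Pl := {x | x 1 = k * x 0 ^ 2}

/-- Nondegenerate real conics: ellipses (circles included), hyperbolas and parabolas, that is, the
plane sets congruent to one of the standard curves. -/
def IsConic (C : Set Pl) : Prop :=
  (∃ a b : ℝ, 0 < a ∧ 0 < b ∧ Congruent C (stdEllipse a b)) ∨
  (∃ a b : ℝ, 0 < a ∧ 0 < b ∧ Congruent C (stdHyperbola a b)) ∨
  (∃ k : ℝ, 0 < k ∧ Congruent C (stdParabola k))

/-- An `n`-configuration: `n` distinct points `p j` and `n` pairwise distinct, pairwise congruent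
conics `C i`, each of which contains exactly `n - 1` of the points. -/
def IsConfiguration (n : ℕ) (p : Fin n → Pl) (C : Fin n → Set Pl) : Prop :=
  Function.Injective p ∧ Function.Injective C ∧ (∀ i, IsConic (C i)) ∧
    (∀ i j, Congruent (C i) (C j)) ∧ ∀ i, {j | p j ∈ C i}.ncard = n - 1

end H593Six
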