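import Pool.Agent.H593Six.Geo

set_option autoImplicit false

namespace H593Six

/-- coefficients of the product of the equations of the lines `PQ` and `RS` -/
def pl (P Q R S : Pl) : Fin 6 → ℝ :=
  ![(-(Q 1 - P 1)) * (-(S 1 - R 1)),
    (-(Q 1 - P 1)) * (S 0 - R 0) + (-(S 1 - R 1)) * (Q 0 - P 0),
    (Q 0 - P 0) * (S 0 - R 0),
    (-(Q 1 - P 1)) * ((S 1 - R 1) * R 0 - (S 0 - R 0) * R 1) +
      (-(S 1 - R 1)) * ((Q 1 - P 1) * P 0 - (Q 0 - P 0) * P 1),
    (Q 0 - P 0) * ((S 1 - R 1) * R 0 - (S 0 - R 0) * R 1) +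
      (S 0 - R 0) * ((Q 1 - P 1) * P 0 - (Q 0 - P 0) * P 1),
    ((Q 1 - P 1) * P 0 - (Q 0 - P 0) * P 1) * ((S 1 - R 1) * R 0 - (S 0 - R 0) * R 1)]

theorem ev_pl (P Q R S X : Pl) : ev (pl P Q R S) X = ori P Q X * ori R S X := by
  simp [ev, pl, ori]; ring

theorem ori_left (P Q : Pl) : ori P Q P = 0 := by simp [ori]
theorem ori_right (P Q : Pl) : ori P Q Q = 0 := by simp [ori]; ring

/-- evaluation at five points -/
def evl (P : Fin 5 → Pl) : (Fin 6 → ℝ) →ₗ[ℝ] (Fin 5 → ℝ) where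
  toFun q := fun i => ev q (P i)
  map_add' q r := by ext i; simp [ev]; ring
  map_smul' c q := by ext i; simp [ev]; ring

theorem five (P : Fin 5 → Pl)
    (h3 : ∀ i j k, i ≠ j → i ≠ k → j ≠ k → ori (P i) (P j) (P k) ≠ 0) (q r : Fin 6 → ℝ)
    (hq : ∀ i, ev q (P i) = 0) (hr : ∀ i, ev r (P i) = 0) (hq0 : q ≠ 0) :
    ∃ c : ℝ, c • q = r := by
  have hsurj : Function.Surjective (evl P) := by
    have key : ∀ i : Fin 5, ∃ e : Fin 6 → ℝ, evl P e = Pi.single i 1 := by
      intro i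
      have hz : ∀ j, j ≠ i → ev (pl (P (i + 1)) (P (i + 2)) (P (i + 3)) (P (i + 4))) (P j) = 0 := by
        intro j hj
        rw [ev_pl]
        have : j = i + 1 ∨ j = i + 2 ∨ j = i + 3 ∨ j = i + 4 := by
          revert i j; decide
        rcases this with h | h | h | h
        · rw [h, ori_left, zero_mul]
        · rw [h, ori_right, zero_mul]
        · rw [h, ori_left, mul_zero]
        · rw [h, ori_right, mul_zero]
      have hn : ev (pl (P (i + 1)) (P (i + 2)) (P (i + 3)) (P (i + 4))) (P i) ≠ 0 := by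
        rw [ev_pl]
        refine mul_ne_zero (h3 _ _ _ ?_ ?_ ?_) (h3 _ _ _ ?_ ?_ ?_) <;> clear hz <;> revert i <;> decide
      refine ⟨(ev (pl (P (i + 1)) (P (i + 2)) (P (i + 3)) (P (i + 4))) (P i))⁻¹ •
        pl (P (i + 1)) (P (i + 2)) (P (i + 3)) (P (i + 4)), ?_⟩
      rw [map_smul]
      ext j
      simp only [Pi.smul_apply, smul_eq_mul]
      by_cases hj : j = i
      · subst hj
        rw [Pi.single_eq_same]
        exact inv_mul_cancel₀ hn
      · rw [Pi.single_eq_of_ne hj]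
        have := hz j hj
        show _ * ev _ (P j) = 0
        rw [this, mul_zero]
    choose e he using key
    intro y
    refine ⟨∑ i, y i • e i, ?_⟩
    rw [map_sum]
    simp only [map_smul, he]
    ext j
    simp [Finset.sum_apply, Pi.single_apply]
  have hker : Module.finrank ℝ (LinearMap.ker (evl P)) = 1 := by
    have h1 := LinearMap.finrank_range_add_finrank_ker (evl P)
    rw [LinearMap.range_eq_top.mpr hsurj, finrank_top] at h1
    simp at h1
    omega
  have hqk : q ∈ LinearMap.ker (evl P) := by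
    rw [LinearMap.mem_ker]; ext i; exact hq i
  have hrk : r ∈ LinearMap.ker (evl P) := by
    rw [LinearMap.mem_ker]; ext i; exact hr i
  obtain ⟨c, hc⟩ := (finrank_eq_one_iff_of_nonzero' (⟨q, hqk⟩ : LinearMap.ker (evl P))
    (by intro h; exact hq0 (congrArg Subtype.val h))).mp hker ⟨r, hrk⟩
  exact ⟨c, congrArg Subtype.val hc⟩

theorem nd_ne (q : Fin 6 → ℝ) (h : nd q ≠ 0) : q ≠ 0 := by
  rintro rfl
  apply h
  simp [nd]

end H593Six
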