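import Pool.Agent.H593Six.Defs

set_option autoImplicit false

namespace H593Six

/-! ### Coordinates of isometries -/

theorem isometry_coords (g : Pl ≃ᵢ Pl) : ∃ m00 m01 m10 m11 t0 t1 : ℝ,
    m00 ^ 2 + m10 ^ 2 = 1 ∧ m01 ^ 2 + m11 ^ 2 = 1 ∧ m00 * m01 + m10 * m11 = 0 ∧
    ∀ x : Pl, g x 0 = m00 * x 0 + m01 * x 1 + t0 ∧ g x 1 = m10 * x 0 + m11 * x 1 + t1 := by
  set L := g.toRealLinearIsometryEquiv with hL
  have hLg : ∀ x, L x = g x - g 0 := fun x => by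
    rw [hL]; exact IsometryEquiv.toRealLinearIsometryEquiv_apply g x
  set e0 : Pl := EuclideanSpace.single 0 1 with he0
  set e1 : Pl := EuclideanSpace.single 1 1 with he1
  have hx : ∀ x : Pl, x = x 0 • e0 + x 1 • e1 := fun x => by
    ext i; fin_cases i <;> simp [he0, he1]
  have i00 : inner ℝ (L e0) (L e0) = (1 : ℝ) := by
    rw [L.inner_map_map]; simp [he0]
  have i11 : inner ℝ (L e1) (L e1) = (1 : ℝ) := by
    rw [L.inner_map_map]; simp [he1]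
  have i01 : inner ℝ (L e0) (L e1) = (0 : ℝ) := by
    rw [L.inner_map_map, he0, he1, EuclideanSpace.inner_single_left]; simp
  rw [PiLp.inner_apply, Fin.sum_univ_two] at i00 i11 i01
  simp only [RCLike.inner_apply, conj_trivial] at i00 i11 i01
  refine ⟨L e0 0, L e1 0, L e0 1, L e1 1, g 0 0, g 0 1, by linarith, by linarith, by linarith, ?_⟩
  intro x
  have h1 : g x = L x + g 0 := by rw [hLg]; simp
  have h2 : L x = x 0 • L e0 + x 1 • L e1 := by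
    conv_lhs => rw [hx x]
    rw [map_add, map_smul, map_smul]
  rw [h1, h2]
  constructor <;> simp <;> ring

/-! ### Quadratic polynomials -/

/-- value of the quadratic polynomial with coefficients `q` -/
def ev (q : Fin 6 → ℝ) (x : Pl) : ℝ :=
  q 0 * x 0 ^ 2 + q 1 * (x 0 * x 1) + q 2 * x 1 ^ 2 + q 3 * x 0 + q 4 * x 1 + q 5

/-- four times the determinant of the symmetric matrix of the quadratic polynomial -/
def nd (q : Fin 6 → ℝ) : ℝ :=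
  4 * q 0 * q 2 * q 5 + q 1 * q 3 * q 4 - q 2 * q 3 ^ 2 - q 0 * q 4 ^ 2 - q 5 * q 1 ^ 2

theorem conic_std (C : Set Pl) (hC : IsConic C) : ∃ (α β γ δ : ℝ) (g : Pl ≃ᵢ Pl),
    4 * α * β * δ - α * γ ^ 2 ≠ 0 ∧
    ∀ x, x ∈ C ↔ α * (g x 0) ^ 2 + β * (g x 1) ^ 2 + γ * g x 1 + δ = 0 := by
  have mem : ∀ (g : Pl ≃ᵢ Pl) (S : Set Pl), g '' C = S → ∀ x, x ∈ C ↔ g x ∈ S := by
    intro g S h x
    rw [← h]
    exact (g.injective.mem_set_image).symm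
  rcases hC with ⟨a, b, ha, hb, g, hg⟩ | ⟨a, b, ha, hb, g, hg⟩ | ⟨k, hk, g, hg⟩
  · refine ⟨1 / a ^ 2, 1 / b ^ 2, 0, -1, g, ?_, fun x => ?_⟩
    · have : 0 < 1 / a ^ 2 * (1 / b ^ 2) := by positivity
      intro h; nlinarith
    · rw [mem g _ hg x]
      simp only [stdEllipse, Set.mem_ofPred_eq]
      constructor <;> intro h <;> linear_combination h
  · refine ⟨1 / a ^ 2, -(1 / b ^ 2), 0, -1, g, ?_, fun x => ?_⟩
    · have : 0 < 1 / a ^ 2 * (1 / b ^ 2) := by positivity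
      intro h; nlinarith
    · rw [mem g _ hg x]
      simp only [stdHyperbola, Set.mem_ofPred_eq]
      constructor <;> intro h <;> linear_combination h
  · refine ⟨k, 0, -1, 0, g, ?_, fun x => ?_⟩
    · intro h; nlinarith
    · rw [mem g _ hg x]
      simp only [stdParabola, Set.mem_ofPred_eq]
      constructor <;> intro h <;> linear_combination -h

theorem repr_congr (C D : Set Pl) (α β γ δ : ℝ) (g : Pl ≃ᵢ Pl)
    (h0 : 4 * α * β * δ - α * γ ^ 2 ≠ 0)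
    (hC : ∀ x, x ∈ C ↔ α * (g x 0) ^ 2 + β * (g x 1) ^ 2 + γ * g x 1 + δ = 0)
    (hCD : Congruent C D) : ∃ q : Fin 6 → ℝ, (∀ x, x ∈ D ↔ ev q x = 0) ∧ q 0 + q 2 = α + β ∧
      (q 0 - q 2) ^ 2 + q 1 ^ 2 = (α - β) ^ 2 ∧ nd q ≠ 0 := by
  obtain ⟨k, hk⟩ := hCD
  obtain ⟨m00, m01, m10, m11, t0, t1, c0, c1, c2, hm⟩ := isometry_coords (k.symm.trans g)
  -- determinant and rows
  have hdet : (m00 * m11 - m01 * m10) ^ 2 = 1 := by
    linear_combination m01 ^ 2 * c0 + m11 ^ 2 * c0 + c1 - (m00 * m01 + m10 * m11) * c2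
  have r0 : m00 = (m00 * m11 - m01 * m10) * m11 := by
    linear_combination -m00 * c1 + m01 * c2
  have r1 : m10 = -((m00 * m11 - m01 * m10) * m01) := by
    linear_combination -m10 * c1 + m11 * c2
  have s0 : m00 ^ 2 + m01 ^ 2 = 1 := by
    have : m00 ^ 2 = m11 ^ 2 := by
      calc m00 ^ 2 = ((m00 * m11 - m01 * m10) * m11) ^ 2 := by rw [← r0]
        _ = m11 ^ 2 := by rw [mul_pow, hdet, one_mul]
    linarith
  have s1 : m10 ^ 2 + m11 ^ 2 = 1 := by linarith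
  refine ⟨![α * m00 ^ 2 + β * m10 ^ 2, 2 * (α * m00 * m01 + β * m10 * m11),
    α * m01 ^ 2 + β * m11 ^ 2, 2 * α * m00 * t0 + 2 * β * m10 * t1 + γ * m10,
    2 * α * m01 * t0 + 2 * β * m11 * t1 + γ * m11,
    α * t0 ^ 2 + β * t1 ^ 2 + γ * t1 + δ], ?_, ?_, ?_, ?_⟩
  · intro x
    have h1 : x ∈ D ↔ k.symm x ∈ C := by
      rw [← hk]
      constructor
      · rintro ⟨y, hy, rfl⟩; simpa using hy
      · intro h; exact ⟨k.symm x, h, by simp⟩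
    rw [h1, hC]
    obtain ⟨h2, h3⟩ := hm x
    simp only [IsometryEquiv.trans_apply] at h2 h3
    rw [h2, h3]
    simp only [ev]
    simp
    constructor <;> intro h <;> linear_combination h
  · simp
    linear_combination α * s0 + β * s1
  · simp
    have e : (α * m00 ^ 2 + β * m10 ^ 2 - (α * m01 ^ 2 + β * m11 ^ 2)) ^ 2 +
        (2 * (α * m00 * m01 + β * m10 * m11)) ^ 2 =
        (α * (m00 ^ 2 + m01 ^ 2) + β * (m10 ^ 2 + m11 ^ 2)) ^ 2 -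
          4 * α * β * (m00 * m11 - m01 * m10) ^ 2 := by ring
    rw [e, s0, s1, hdet]; ring
  · have e : nd ![α * m00 ^ 2 + β * m10 ^ 2, 2 * (α * m00 * m01 + β * m10 * m11),
      α * m01 ^ 2 + β * m11 ^ 2, 2 * α * m00 * t0 + 2 * β * m10 * t1 + γ * m10,
      2 * α * m01 * t0 + 2 * β * m11 * t1 + γ * m11,
      α * t0 ^ 2 + β * t1 ^ 2 + γ * t1 + δ] =
        (m00 * m11 - m01 * m10) ^ 2 * (4 * α * β * δ - α * γ ^ 2) := by
      simp [nd]; ring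
    rw [e, hdet, one_mul]
    exact h0

/-! ### Five points determine a conic -/

/-- orientation determinant -/
def ori (P Q R : Pl) : ℝ := (Q 0 - P 0) * (R 1 - P 1) - (Q 1 - P 1) * (R 0 - P 0)

theorem gram_id (q0 q1 q2 q3 q4 q5 P0 P1 v0 v1 : ℝ) :
    (4 * q0 * q2 * q5 + q1 * q3 * q4 - q2 * q3 ^ 2 - q0 * q4 ^ 2 - q5 * q1 ^ 2) *
      (v0 ^ 2 + v1 ^ 2) ^ 2 =
    (q0 * P0 ^ 2 + q1 * (P0 * P1) + q2 * P1 ^ 2 + q3 * P0 + q4 * P1 + q5) *
      (4 * (q0 * v0 ^ 2 + q1 * (v0 * v1) + q2 * v1 ^ 2) *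
        (q0 * v1 ^ 2 - q1 * (v0 * v1) + q2 * v0 ^ 2) -
        (-2 * q0 * v0 * v1 + q1 * (v0 ^ 2 - v1 ^ 2) + 2 * q2 * v0 * v1) ^ 2) -
    (2 * q0 * P0 * v0 + q1 * (P0 * v1 + P1 * v0) + 2 * q2 * P1 * v1 + q3 * v0 + q4 * v1) ^ 2 *
      (q0 * v1 ^ 2 - q1 * (v0 * v1) + q2 * v0 ^ 2) +
    (2 * q0 * P0 * v0 + q1 * (P0 * v1 + P1 * v0) + 2 * q2 * P1 * v1 + q3 * v0 + q4 * v1) *
      (-2 * q0 * P0 * v1 + q1 * (P0 * v0 - P1 * v1) + 2 * q2 * P1 * v0 - q3 * v1 + q4 * v0) *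
      (-2 * q0 * v0 * v1 + q1 * (v0 ^ 2 - v1 ^ 2) + 2 * q2 * v0 * v1) -
    (q0 * v0 ^ 2 + q1 * (v0 * v1) + q2 * v1 ^ 2) *
      (-2 * q0 * P0 * v1 + q1 * (P0 * v0 - P1 * v1) + 2 * q2 * P1 * v0 - q3 * v1 + q4 * v0) ^ 2 := by
  ring

theorem no_three (q : Fin 6 → ℝ) (hq : nd q ≠ 0) (P Q R : Pl) (hP : ev q P = 0) (hQ : ev q Q = 0)
    (hR : ev q R = 0) (hPQ : P ≠ Q) (hPR : P ≠ R) (hQR : Q ≠ R) : ori P Q R ≠ 0 := by
  intro hO
  -- `R = P + s (Q - P)`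
  set v0 : ℝ := Q 0 - P 0 with hv0
  set v1 : ℝ := Q 1 - P 1 with hv1
  have hv : v0 ^ 2 + v1 ^ 2 ≠ 0 := by
    intro h
    have h0 : v0 = 0 := by nlinarith [sq_nonneg v0, sq_nonneg v1]
    have h1 : v1 = 0 := by nlinarith [sq_nonneg v0, sq_nonneg v1]
    apply hPQ
    ext i
    fin_cases i
    · simp only [Fin.zero_eta]; rw [hv0] at h0; linarith
    · simp only [Fin.mk_one]; rw [hv1] at h1; linarith
  set s : ℝ := (v0 * (R 0 - P 0) + v1 * (R 1 - P 1)) / (v0 ^ 2 + v1 ^ 2) with hs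
  have hO' : v0 * (R 1 - P 1) - v1 * (R 0 - P 0) = 0 := hO
  have hR0 : R 0 = P 0 + s * v0 := by
    rw [hs]; field_simp; linear_combination (-v1) * hO'
  have hR1 : R 1 = P 1 + s * v1 := by
    rw [hs]; field_simp; linear_combination v0 * hO'
  have hs0 : s ≠ 0 := by
    intro h
    apply hPR
    ext i
    fin_cases i
    · simp only [Fin.zero_eta]; rw [hR0, h]; ring
    · simp only [Fin.mk_one]; rw [hR1, h]; ring
  have hs1 : s - 1 ≠ 0 := by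
    intro h
    have h' : s = 1 := by linarith
    apply hQR
    ext i
    fin_cases i
    · simp only [Fin.zero_eta]; rw [hR0, h', hv0]; ring
    · simp only [Fin.mk_one]; rw [hR1, h', hv1]; ring
  set u2 : ℝ := q 0 * v0 ^ 2 + q 1 * (v0 * v1) + q 2 * v1 ^ 2 with hu2
  set u1 : ℝ := 2 * q 0 * P 0 * v0 + q 1 * (P 0 * v1 + P 1 * v0) + 2 * q 2 * P 1 * v1 +
    q 3 * v0 + q 4 * v1 with hu1
  have e1 : u1 + u2 = 0 := by
    have hQ0 : Q 0 = P 0 + v0 := by rw [hv0]; ring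
    have hQ1 : Q 1 = P 1 + v1 := by rw [hv1]; ring
    simp only [ev] at hP hQ
    rw [hQ0, hQ1] at hQ
    rw [hu1, hu2]
    linear_combination hQ - hP
  have e2 : s * (u1 + s * u2) = 0 := by
    simp only [ev] at hP hR
    rw [hR0, hR1] at hR
    rw [hu1, hu2]
    linear_combination hR - hP
  have e3 : u1 + s * u2 = 0 := (mul_eq_zero.mp e2).resolve_left hs0
  have e4 : (s - 1) * u2 = 0 := by linear_combination e3 - e1
  have e5 : u2 = 0 := (mul_eq_zero.mp e4).resolve_left hs1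
  have e6 : u1 = 0 := by linarith
  -- the Gram determinant
  have hPe : q 0 * P 0 ^ 2 + q 1 * (P 0 * P 1) + q 2 * P 1 ^ 2 + q 3 * P 0 + q 4 * P 1 + q 5 = 0 :=
    hP
  -- entries of the third column
  set w2 : ℝ := q 0 * v1 ^ 2 - q 1 * (v0 * v1) + q 2 * v0 ^ 2 with hw2
  set x2 : ℝ := -2 * q 0 * P 0 * v1 + q 1 * (P 0 * v0 - P 1 * v1) + 2 * q 2 * P 1 * v0 -
    q 3 * v1 + q 4 * v0 with hx2
  set y2 : ℝ := -2 * q 0 * v0 * v1 + q 1 * (v0 ^ 2 - v1 ^ 2) + 2 * q 2 * v0 * v1 with hy2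
  set f0 : ℝ := q 0 * P 0 ^ 2 + q 1 * (P 0 * P 1) + q 2 * P 1 ^ 2 + q 3 * P 0 + q 4 * P 1 + q 5
    with hf0
  have gram : nd q * (v0 ^ 2 + v1 ^ 2) ^ 2 =
      f0 * (4 * u2 * w2 - y2 ^ 2) - u1 ^ 2 * w2 + u1 * x2 * y2 - u2 * x2 ^ 2 := by
    rw [hf0, hu1, hu2, hw2, hx2, hy2]
    exact gram_id (q 0) (q 1) (q 2) (q 3) (q 4) (q 5) (P 0) (P 1) v0 v1
  rw [hPe, e5, e6] at gram
  have : nd q * (v0 ^ 2 + v1 ^ 2) ^ 2 = 0 := by rw [gram]; ring
  exact (mul_ne_zero hq (pow_ne_zero 2 hv)) this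

end H593Six
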