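import Pool.Agent.H593Six.Five
import Pool.Agent.H593Six.Alg

set_option autoImplicit false

namespace H593Six

open Complex ComplexConjugate

theorem ev_smul (c : ℝ) (q : Fin 6 → ℝ) (x : Pl) : ev (c • q) x = c * ev q x := by
  simp [ev]; ring

theorem cplx (q : Fin 6 → ℝ) (μ : ℝ) (x : Pl) :
    (⟨μ * (q 0 - q 2) / 4, -(μ * q 1 / 4)⟩ : ℂ) * (⟨x 0, x 1⟩ : ℂ) ^ 2 +
      conj (⟨μ * (q 0 - q 2) / 4, -(μ * q 1 / 4)⟩ : ℂ) * conj (⟨x 0, x 1⟩ : ℂ) ^ 2 +
      ((μ * (q 0 + q 2) / 2 : ℝ) : ℂ) * ((⟨x 0, x 1⟩ : ℂ) * conj (⟨x 0, x 1⟩ : ℂ)) +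
      (⟨μ * q 3 / 2, -(μ * q 4 / 2)⟩ : ℂ) * (⟨x 0, x 1⟩ : ℂ) +
      conj (⟨μ * q 3 / 2, -(μ * q 4 / 2)⟩ : ℂ) * conj (⟨x 0, x 1⟩ : ℂ) +
      ((μ * q 5 : ℝ) : ℂ) = ((μ * ev q x : ℝ) : ℂ) := by
  apply Complex.ext
  · simp [ev, pow_two]; ring
  · simp [pow_two]; ring

theorem no_six (p : Fin 6 → Pl) (C : Fin 6 → Set Pl) (h : IsConfiguration 6 p C) : False := by
  obtain ⟨hp, hCinj, hcon, hcong, hcard⟩ := h
  obtain ⟨α, β, γ, δ, g, hnd, hC0⟩ := conic_std (C 0) (hcon 0)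
  have hrep := fun i => repr_congr (C 0) (C i) α β γ δ g hnd hC0 (hcong 0 i)
  choose q hqC hq1 hq2 hqn using hrep
  -- the missing point
  have hmiss : ∀ i, ∃ m, ∀ j, p j ∈ C i ↔ j ≠ m := by
    intro i
    have h1 := Set.ncard_add_ncard_compl {j | p j ∈ C i}
    rw [hcard i] at h1
    simp only [Nat.card_eq_fintype_card, Fintype.card_fin] at h1
    have h2 : ({j | p j ∈ C i}ᶜ : Set (Fin 6)).ncard = 1 := by omega
    obtain ⟨a, ha⟩ := Set.ncard_eq_one.mp h2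
    refine ⟨a, fun j => ?_⟩
    have h3 : j ∈ ({j | p j ∈ C i}ᶜ : Set (Fin 6)) ↔ j ∈ ({a} : Set (Fin 6)) := by rw [ha]
    simp only [Set.mem_compl_iff, Set.mem_ofPred_eq, Set.mem_singleton_iff] at h3
    rw [← not_iff_not, h3]
    simp
  choose m hm using hmiss
  have hminj : Function.Injective m := by
    intro i j hij
    have hne : ∀ a b : Fin 5, a ≠ b → p ((m i).succAbove a) ≠ p ((m i).succAbove b) :=
      fun a b hab h => hab (Fin.succAbove_right_injective (hp h))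
    have hzi : ∀ a : Fin 5, ev (q i) (p ((m i).succAbove a)) = 0 := fun a =>
      (hqC i _).mp ((hm i _).mpr (Fin.succAbove_ne _ _))
    have hzj : ∀ a : Fin 5, ev (q j) (p ((m i).succAbove a)) = 0 := fun a =>
      (hqC j _).mp ((hm j _).mpr (by rw [← hij]; exact Fin.succAbove_ne _ _))
    obtain ⟨c, hc⟩ := five (fun a => p ((m i).succAbove a))
      (fun a b d hab had hbd => no_three (q i) (hqn i) _ _ _ (hzi a) (hzi b) (hzi d)
        (hne a b hab) (hne a d had) (hne b d hbd)) (q i) (q j) hzi hzj (nd_ne _ (hqn i))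
    have hc0 : c ≠ 0 := by
      rintro rfl
      exact nd_ne _ (hqn j) (by rw [← hc, zero_smul])
    apply hCinj
    ext x
    rw [hqC i, hqC j, ← hc, ev_smul]
    simp [hc0]
  have hmb : Function.Bijective m := Finite.injective_iff_bijective.mp hminj
  set σ := Equiv.ofBijective m hmb with hσ
  have hmσ : ∀ i, m (σ.symm i) = i := fun i => σ.apply_symm_apply i
  have hz : ∀ i j, ev (q (σ.symm i)) (p j) = 0 ↔ j ≠ i := fun i j => by
    rw [← hqC, hm, hmσ]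
  -- complex coordinates
  set μ : Fin 6 → ℝ := fun i => (ev (q (σ.symm i)) (p i))⁻¹ with hμ
  have hμ0 : ∀ i, ev (q (σ.symm i)) (p i) ≠ 0 := fun i h => (hz i i).mp h rfl
  have hμ1 : ∀ i, μ i ≠ 0 := fun i => inv_ne_zero (hμ0 i)
  set z : Fin 6 → ℂ := fun j => ⟨p j 0, p j 1⟩ with hzd
  set A : Fin 6 → ℂ := fun i =>
    ⟨μ i * (q (σ.symm i) 0 - q (σ.symm i) 2) / 4, -(μ i * q (σ.symm i) 1 / 4)⟩ with hA
  set D : Fin 6 → ℂ := fun i =>
    ⟨μ i * q (σ.symm i) 3 / 2, -(μ i * q (σ.symm i) 4 / 2)⟩ with hD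
  set B : Fin 6 → ℝ := fun i => μ i * (q (σ.symm i) 0 + q (σ.symm i) 2) / 2 with hB
  set E : Fin 6 → ℝ := fun i => μ i * q (σ.symm i) 5 with hE
  have hQ : ∀ i j, A i * z j ^ 2 + conj (A i) * conj (z j) ^ 2 + B i * (z j * conj (z j)) +
      D i * z j + conj (D i) * conj (z j) + E i = if i = j then 1 else 0 := by
    intro i j
    have h1 := cplx (q (σ.symm i)) (μ i) (p j)
    simp only [hA, hD, hB, hE, hzd]
    rw [h1]
    by_cases hij : i = j
    · subst hij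
      rw [if_pos rfl, hμ]
      simp only
      rw [inv_mul_cancel₀ (hμ0 i)]
      simp
    · rw [if_neg hij, (hz i j).mpr (fun h => hij h.symm)]
      simp
  have hBe : ∀ i, B i = μ i * (α + β) / 2 := fun i => by
    simp only [hB]; rw [hq1]
  by_cases hab : α + β = 0
  · -- rectangular hyperbolas
    obtain ⟨-, -, -, -, b3, -⟩ := moments z A D B E hQ
    have : ∀ i, B i = 0 := fun i => by rw [hBe, hab]; simp
    simp [this] at b3
  · refine core z A D B E ((α - β) ^ 2 / (4 * (α + β) ^ 2)) hQ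
      (fun i => by
        rw [hBe]
        exact div_ne_zero (mul_ne_zero (hμ1 i) hab) two_ne_zero) (fun i => ?_)
    have h1 : A i * conj (A i) = ((μ i ^ 2 * (α - β) ^ 2 / 16 : ℝ) : ℂ) := by
      rw [mul_conj]
      congr 1
      simp only [hA, normSq_mk]
      linear_combination (μ i ^ 2 / 16) * hq2 (σ.symm i)
    rw [h1, hBe]
    have hab' : ((α : ℂ) + β) ≠ 0 := by exact_mod_cast hab
    push_cast
    field_simp
    ring

end H593Six
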